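import Mathlib

/-!
# A countably compact sequential group that is not Frechet-Urysohn, from CH

We show: the continuum hypothesis implies that there is a Hausdorff (abelian, Boolean) topological
group which is countably compact and sequential, but not Frechet-Urysohn.

Sketch.  Let `P = 2^X` with `X = ℕ × ℕ`, a compact metrizable Boolean group.  Using CH, index all
null sequences of `P` by a well-ordered set `T` all of whose initial segments are countable.  By
recursion on `t : T` we choose a compact subgroup `N_t` of `P`, a set `A_t ⊆ X` and a (discontinuous)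
homomorphism `φ_t : P → 2` such that
* `φ_t` is continuous on each group `N_F = P(first i columns) + ∑_{s ∈ F} N_s`, `F ⊆ {s < t}` finite;
* `φ_t (e_p) = 1` for all `p ∈ A_t`;
* infinitely many terms of the `t`-th null sequence lie in one group `N_F`, `F ⊆ {s ≤ t}` finite;
* (`good`) for all `l` and `F` the sets of size at most `l` whose indicator lies in `N_F` are
  contained in a finite union of columns and sets `A_s`.
The group is `G = {(x, z, y) ∈ P × 2^ℕ × 2^T : y t = φ_t x for all but countably many t}`.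
It is an extension of a compact metrizable group by a `Σ`-product; it is sequentially compact because
of the third item and sequential because it is sequentially compact and the exceptional sets are
countable.  The points `(e_p, e_{column of p}, (φ_t e_p)_t)` accumulate to `0`, but no sequence of
them converges to `0`.
-/

open Set Filter Topology Pointwise

namespace Pool.Agent.Results.MP_1ab623_gt.CHCounterexample

abbrev X : Type := ℕ × ℕ
abbrev P : Type := X → ZMod 2

/-- indicator -/
noncomputable def ind (E : Finset X) : P := fun p => if p ∈ E then 1 else 0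

/-- vectors supported in `A` -/
def PS (A : Set X) : Submodule (ZMod 2) P where
  carrier := {x | ∀ p, p ∉ A → x p = 0}
  add_mem' := by
    intro a b ha hb p hp
    simp [ha p hp, hb p hp]
  zero_mem' := by intro p _; rfl
  smul_mem' := by
    intro c x hx p hp
    simp [hx p hp]

def U (S : Finset X) : Submodule (ZMod 2) P where
  carrier := {x | ∀ p ∈ S, x p = 0}
  add_mem' := by
    intro a b ha hb p hp
    simp [ha p hp, hb p hp]
  zero_mem' := by intro p _; rfl
  smul_mem' := by
    intro c x hx p hp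
    simp [hx p hp]

theorem mem_PS {A : Set X} {x : P} : x ∈ PS A ↔ ∀ p, p ∉ A → x p = 0 := Iff.rfl
theorem mem_U {S : Finset X} {x : P} : x ∈ U S ↔ ∀ p ∈ S, x p = 0 := Iff.rfl

theorem PS_mono {A B : Set X} (h : A ⊆ B) : PS A ≤ PS B := by
  intro x hx p hp
  exact hx p (fun h' => hp (h h'))

theorem U_anti {S T : Finset X} (h : S ⊆ T) : U T ≤ U S := by
  intro x hx p hp
  exact hx p (h hp)

theorem z2 (a : ZMod 2) : a = 0 ∨ a = 1 := by
  revert a; decide

theorem add_self_z2 (a : ZMod 2) : a + a = 0 := CharTwo.add_self_eq_zero a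

theorem add_self_P (x : P) : x + x = 0 := by
  funext p; exact add_self_z2 _

theorem neg_P (x : P) : -x = x := by
  funext p; exact CharTwo.neg_eq (x p)

theorem ind_empty : ind ∅ = 0 := by
  funext p; simp [ind]

theorem ind_apply (E : Finset X) (p : X) : ind E p = if p ∈ E then 1 else 0 := rfl

theorem ind_symmDiff (E F : Finset X) : ind (symmDiff E F) = ind E + ind F := by
  funext p
  simp only [ind, Pi.add_apply, Finset.mem_symmDiff]
  by_cases h1 : p ∈ E <;> by_cases h2 : p ∈ F <;> simp [h1, h2]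
  exact (add_self_z2 1).symm

theorem card_symmDiff_le (E F : Finset X) : (symmDiff E F).card ≤ E.card + F.card := by
  calc (symmDiff E F).card ≤ (E ∪ F).card := Finset.card_le_card (by
        intro p hp
        simp only [Finset.mem_symmDiff, Finset.mem_union] at *
        tauto)
    _ ≤ _ := Finset.card_union_le _ _

theorem ind_mem_PS {E : Finset X} {A : Set X} : ind E ∈ PS A ↔ (E : Set X) ⊆ A := by
  constructor
  · intro h p hp
    by_contra hpA
    have := h p hpA
    simp [ind, Finset.mem_coe.1 hp] at this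
  · intro h p hp
    have : p ∉ E := fun h' => hp (h h')
    simp [ind, this]

theorem continuous_eval (p : X) : Continuous (fun x : P => x p) := continuous_apply p

theorem isClosed_PS (A : Set X) : IsClosed (PS A : Set P) := by
  have : (PS A : Set P) = ⋂ p ∈ Aᶜ, {x : P | x p = 0} := by
    ext x
    simp [mem_PS]
  rw [this]
  refine isClosed_biInter fun p _ => ?_
  exact isClosed_eq (continuous_apply p) continuous_const

theorem isOpen_U (S : Finset X) : IsOpen (U S : Set P) := by
  have : (U S : Set P) = ⋂ p ∈ S, {x : P | x p = 0} := by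
    ext x
    simp [mem_U]
  rw [this]
  refine isOpen_biInter_finset fun p _ => ?_
  exact (continuous_eval p).isOpen_preimage {0} (isOpen_discrete _)

theorem nhds_zero_basis {V : Set P} (hV : V ∈ 𝓝 (0 : P)) : ∃ S : Finset X, (U S : Set P) ⊆ V := by
  obtain ⟨O, hOV, hO, h0⟩ := mem_nhds_iff.1 hV
  obtain ⟨S, u, hu, hsub⟩ := isOpen_pi_iff.1 hO 0 h0
  refine ⟨S, fun x hx => hOV (hsub ?_)⟩
  intro p hp
  have : x p = 0 := hx p hp
  rw [this]
  exact (hu p hp).2

/-- separation of a compact set from a closed one -/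
theorem sep {C K : Set P} (hC : IsCompact C) (hK : IsClosed K) (hd : ∀ x ∈ C, x ∉ K) :
    ∃ S : Finset X, ∀ x ∈ C, ∀ y ∈ U S, x + y ∉ K := by
  obtain ⟨V, hV, hVs⟩ := compact_open_separated_add_right hC hK.isOpen_compl hd
  obtain ⟨S, hS⟩ := nhds_zero_basis hV
  exact ⟨S, fun x hx y hy => hVs (Set.add_mem_add hx (hS hy))⟩

/-- `W l` : indicators of sets of size at most `l` -/
def W (l : ℕ) : Set P := {x | ∃ E : Finset X, E.card ≤ l ∧ x = ind E}

theorem eq_ind_of_finite {x : P} (h : {p | x p ≠ 0}.Finite) : x = ind h.toFinset := by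
  funext p
  rcases z2 (x p) with h0 | h1
  · simp [ind, h0]
  · simp [ind, h1]

theorem W_eq (l : ℕ) : W l = ⋂ (T : Finset X) (_ : T.card = l + 1), ⋃ p ∈ T, {x : P | x p = 0} := by
  ext x
  simp only [W, Set.mem_ofPred_eq, mem_iInter, mem_iUnion, exists_prop]
  constructor
  · rintro ⟨E, hE, rfl⟩ T hT
    obtain ⟨p, hpT, hpE⟩ : ∃ p ∈ T, p ∉ E := by
      by_contra hcon
      push Not at hcon
      have := Finset.card_le_card (show T ⊆ E from hcon)
      omega
    exact ⟨p, hpT, by simp [ind, hpE]⟩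
  · intro h
    have hfin : {p | x p ≠ 0}.Finite := by
      by_contra hinf
      obtain ⟨T, hTs, hTc⟩ := Set.Infinite.exists_subset_card_eq hinf (l + 1)
      obtain ⟨p, hp, hp0⟩ := h T hTc
      exact hTs hp hp0
    refine ⟨hfin.toFinset, ?_, eq_ind_of_finite hfin⟩
    by_contra hcard
    push Not at hcard
    obtain ⟨T, hTs, hTc⟩ := Finset.exists_subset_card_eq (Nat.succ_le_of_lt hcard)
    obtain ⟨p, hp, hp0⟩ := h T hTc
    have := hTs hp
    simp at this
    exact this hp0

theorem isClosed_W (l : ℕ) : IsClosed (W l) := by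
  rw [W_eq]
  refine isClosed_iInter fun T => isClosed_iInter fun _ => ?_
  refine Set.Finite.isClosed_biUnion T.finite_toSet fun p _ => ?_
  exact isClosed_eq (continuous_apply p) continuous_const

theorem isCompact_W (l : ℕ) : IsCompact (W l) := (isClosed_W l).isCompact

theorem isClosed_sup {K L : Submodule (ZMod 2) P} (hK : IsClosed (K : Set P)) (hL : IsClosed (L : Set P)) :
    IsClosed ((K ⊔ L : Submodule (ZMod 2) P) : Set P) := by
  rw [Submodule.coe_sup]
  exact (hK.isCompact.add hL.isCompact).isClosed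

theorem exists_seq_rel {α : Type*} (Q : α → Prop) (R : ℕ → α → α → Prop) (a0 : α) (h0 : Q a0)
    (hstep : ∀ n a, Q a → ∃ b, Q b ∧ R n a b) :
    ∃ f : ℕ → α, f 0 = a0 ∧ (∀ n, Q (f n)) ∧ ∀ n, R n (f n) (f (n + 1)) := by
  classical
  choose! g hg1 hg2 using hstep
  let f : ℕ → α := fun n => Nat.rec a0 (fun n a => g n a) n
  have hf0 : f 0 = a0 := rfl
  have hfs : ∀ n, f (n + 1) = g n (f n) := fun n => rfl
  have hQ : ∀ n, Q (f n) := by
    intro n
    induction n with
    | zero => exact h0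
    | succ n ih => rw [hfs]; exact hg1 n _ ih
  exact ⟨f, hf0, hQ, fun n => by rw [hfs]; exact hg2 n _ (hQ n)⟩

noncomputable abbrev e (p : X) : P := Pi.single p 1

theorem e_eq_ind (p : X) : e p = ind {p} := by
  funext q
  by_cases h : q = p
  · subst h; simp [ind]
  · simp [ind, h]

/-- restriction of a vector to a finite set, as indicator -/
theorem eq_ind_of_mem_PS {b : Finset X} {x : P} (hx : x ∈ PS (b : Set X)) :
    ∃ c ⊆ b, x = ind c := by
  classical
  refine ⟨b.filter (fun p => x p ≠ 0), Finset.filter_subset _ _, ?_⟩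
  funext p
  by_cases hp : p ∈ b
  · rcases z2 (x p) with h | h
    · simp [ind, h]
    · simp [ind, h, hp]
  · have := hx p (by simpa using hp)
    simp [ind, hp, this]

theorem ext_functional {K : Submodule (ZMod 2) P} (hK : IsClosed (K : Set P)) (b : Finset X)
    (hb : ∀ c ⊆ b, ind c ∈ K → c = ∅) (g : X → ZMod 2) :
    ∃ f : P →ₗ[ZMod 2] ZMod 2, Continuous f ∧ (∀ x ∈ K, f x = 0) ∧ ∀ p ∈ b, f (e p) = g p := by
  classical
  -- separate
  have hfin : (ind '' {c : Finset X | c ⊆ b ∧ c ≠ ∅}).Finite := by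
    refine Set.Finite.image _ ((b.powerset.finite_toSet).subset ?_)
    intro c hc
    simpa using hc.1
  obtain ⟨S, hS⟩ := sep hfin.isCompact hK (by
    rintro _ ⟨c, ⟨hcb, hc0⟩, rfl⟩ hmem
    exact hc0 (hb c hcb hmem))
  have hdisj : Disjoint (K ⊔ U S) (PS (b : Set X)) := by
    rw [Submodule.disjoint_def]
    intro x hx hxb
    obtain ⟨c, hcb, rfl⟩ := eq_ind_of_mem_PS hxb
    by_contra hne
    have hc0 : c ≠ ∅ := by
      rintro rfl
      exact hne ind_empty
    obtain ⟨k, hk, u, hu, hku⟩ := Submodule.mem_sup.1 hx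
    refine hS (ind c) ⟨c, ⟨hcb, hc0⟩, rfl⟩ u hu ?_
    rw [← hku, add_assoc, add_self_P, add_zero]
    exact hk
  obtain ⟨M, hKM, hM⟩ := hdisj.exists_isCompl
  -- functional on PS b
  let gs : P →ₗ[ZMod 2] ZMod 2 := ∑ p ∈ b, g p • LinearMap.proj p
  let f : P →ₗ[ZMod 2] ZMod 2 := gs ∘ₗ ((PS (b : Set X)).projection M hM.symm)
  have hf0 : ∀ x ∈ K ⊔ U S, f x = 0 := by
    intro x hx
    have : (PS (b : Set X)).projection M hM.symm x = 0 :=
      Submodule.projection_apply_of_mem_right hM.symm (hKM hx)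
    simp [f, this]
  refine ⟨f, ?_, fun x hx => hf0 x (Submodule.mem_sup_left hx), ?_⟩
  · refine continuous_of_continuousAt_zero f.toAddMonoidHom ?_
    have h1 : ∀ᶠ x in 𝓝 (0 : P), f x = 0 := by
      filter_upwards [(isOpen_U S).mem_nhds (U S).zero_mem] with x hx
      exact hf0 x (Submodule.mem_sup_right hx)
    have h2 : Tendsto f (𝓝 0) (𝓝 0) := (tendsto_congr' h1).2 tendsto_const_nhds
    simpa [ContinuousAt] using h2
  · intro p hp
    have hpe : e p ∈ PS (b : Set X) := by
      rw [e_eq_ind, ind_mem_PS]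
      simpa using hp
    have : (PS (b : Set X)).projection M hM.symm (e p) = e p :=
      Submodule.projection_apply_of_mem_left hM.symm hpe
    simp only [f, LinearMap.comp_apply, this, gs, LinearMap.sum_apply, LinearMap.smul_apply,
      LinearMap.proj_apply, smul_eq_mul]
    rw [Finset.sum_eq_single p]
    · simp [e]
    · intro q _ hq
      simp [e, hq]
    · intro h; exact absurd hp h

theorem ultralim (f : ℕ → P →ₗ[ZMod 2] ZMod 2) :
    ∃ φ : P →ₗ[ZMod 2] ZMod 2, ∀ x, ∀ᶠ i in (hyperfilter ℕ : Filter ℕ), f i x = φ x := by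
  have h : ∀ x, ∃ v : ZMod 2, ∀ᶠ i in (hyperfilter ℕ : Filter ℕ), f i x = v := by
    intro x
    have : ∀ᶠ i in (hyperfilter ℕ : Filter ℕ), f i x = 0 ∨ f i x = 1 :=
      Eventually.of_forall fun i => z2 _
    rcases Ultrafilter.eventually_or.1 this with h | h
    · exact ⟨0, h⟩
    · exact ⟨1, h⟩
  choose v hv using h
  refine ⟨{ toFun := v, map_add' := ?_, map_smul' := ?_ }, hv⟩
  · intro x y
    obtain ⟨i, hi⟩ := ((hv (x + y)).and ((hv x).and (hv y))).exists
    rw [← hi.1, ← hi.2.1, ← hi.2.2, map_add]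
  · intro c x
    obtain ⟨i, hi⟩ := ((hv (c • x)).and (hv x)).exists
    rw [← hi.1, ← hi.2, map_smul]
    rfl

theorem ultralim_eq {f : ℕ → P →ₗ[ZMod 2] ZMod 2} {φ : P →ₗ[ZMod 2] ZMod 2}
    (h : ∀ x, ∀ᶠ i in (hyperfilter ℕ : Filter ℕ), f i x = φ x) {x : P} {v : ZMod 2} {n : ℕ}
    (hx : ∀ i ≥ n, f i x = v) : φ x = v := by
  have h1 : ∀ᶠ i in (hyperfilter ℕ : Filter ℕ), f i x = v :=
    Nat.hyperfilter_le_atTop (eventually_atTop.2 ⟨n, hx⟩)
  obtain ⟨i, hi⟩ := ((h x).and h1).exists
  rw [← hi.1, hi.2]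

/-- shift lemma for case 1 -/
theorem shift {K : Submodule (ZMod 2) P} (hK : IsClosed (K : Set P)) (l : ℕ) (q : P)
    (I : ℕ → P) (hI : Tendsto I atTop (𝓝 0))
    (hinf : {k | ∃ E : Finset X, E.card ≤ l ∧ ind E + (q + I k) ∈ K}.Infinite) :
    {k | ∃ E : Finset X, E.card ≤ 2 * l ∧ ind E + I k ∈ K}.Infinite := by
  classical
  have hC : IsClosed (W l + (K : Set P)) := ((isCompact_W l).add hK.isCompact).isClosed
  have hmem : ∀ x, x ∈ W l + (K : Set P) ↔ ∃ E : Finset X, E.card ≤ l ∧ ind E + x ∈ K := by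
    intro x
    constructor
    · rintro ⟨_, ⟨E, hE, rfl⟩, k, hk, rfl⟩
      refine ⟨E, hE, ?_⟩
      simp only [← add_assoc, add_self_P, zero_add]
      exact hk
    · rintro ⟨E, hE, h⟩
      refine ⟨ind E, ⟨E, hE, rfl⟩, ind E + x, h, ?_⟩
      simp only [← add_assoc, add_self_P, zero_add]
  have hq : q ∈ W l + (K : Set P) := by
    have hfreq : ∃ᶠ k in atTop, q + I k ∈ W l + (K : Set P) := by
      rw [Nat.frequently_atTop_iff_infinite]
      refine hinf.mono ?_
      intro k hk
      exact (hmem _).2 hk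
    have ht : Tendsto (fun k => q + I k) atTop (𝓝 (q + 0)) := tendsto_const_nhds.add hI
    rw [add_zero] at ht
    exact hC.mem_of_frequently_of_tendsto hfreq ht
  obtain ⟨E0, hE0, hq0⟩ := (hmem q).1 hq
  refine hinf.mono ?_
  rintro k ⟨E, hE, hk⟩
  refine ⟨symmDiff E E0, ?_, ?_⟩
  · have := card_symmDiff_le E E0
    omega
  · have h3 := K.add_mem hk hq0
    have h4 : ind E + (q + I k) + (ind E0 + q) = ind (symmDiff E E0) + I k := by
      rw [ind_symmDiff]
      have : ind E + (q + I k) + (ind E0 + q) = ind E + ind E0 + I k + (q + q) := by abel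
      rw [this, add_self_P, add_zero]
    rwa [h4] at h3

structure St where
  K : ℕ → Submodule (ZMod 2) P
  D : ℕ → Set X
  Kmono : Monotone K
  Kcl : ∀ j, IsClosed (K j : Set P)
  Dmono : Monotone D
  DK : ∀ j, PS (D j) ≤ K j
  cov : ∀ p, ∃ j, p ∈ D j
  good : ∀ j l, ∃ j', ∀ E : Finset X, E.card ≤ l → ind E ∈ K j → (E : Set X) ⊆ D j'

/-- output of one step -/
structure Out (s : St) (I : ℕ → P) (N : Submodule (ZMod 2) P) (A : Set X)
    (φ : P →ₗ[ZMod 2] ZMod 2) : Prop where
  cl : IsClosed (N : Set P)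
  AN : PS A ≤ N
  good : ∀ j l, ∃ j', ∀ E : Finset X, E.card ≤ l → ind E ∈ s.K j ⊔ N → (E : Set X) ⊆ s.D j' ∪ A
  cont : ∀ j, ContinuousOn φ (s.K j)
  one : ∀ p ∈ A, φ (e p) = 1
  freq : ∃ j, ∃ᶠ k in atTop, I k ∈ s.K j ⊔ N

theorem St.finset_sub (s : St) (S : Finset X) : ∃ j, (S : Set X) ⊆ s.D j := by
  classical
  induction S using Finset.induction_on with
  | empty => exact ⟨0, by simp⟩
  | insert p S _ ih =>
    obtain ⟨j, hj⟩ := ih
    obtain ⟨i, hi⟩ := s.cov p
    refine ⟨max i j, ?_⟩
    rw [Finset.coe_insert]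
    exact Set.insert_subset (s.Dmono (le_max_left _ _) hi) (hj.trans (s.Dmono (le_max_right _ _)))

theorem case2 (s : St) (I : ℕ → P) (l j0 : ℕ)
    (hinf : {k | ∃ E : Finset X, E.card ≤ l ∧ ind E + I k ∈ s.K j0}.Infinite)
    (hmin : ∀ j l', l' < l → {k | ∃ E : Finset X, E.card ≤ l' ∧ ind E + I k ∈ s.K j}.Finite) :
    ∃ N A φ, Out s I N A φ := by
  classical
  -- few k have representatives meeting `D m`
  have hfin : ∀ m, {k | ∃ E : Finset X, E.card ≤ l ∧ ind E + I k ∈ s.K j0 ∧ ∃ p ∈ E, p ∈ s.D m}.Finite := by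
    intro m
    by_cases hl : l = 0
    · convert Set.finite_empty
      ext k
      simp only [Set.mem_ofPred_eq, Set.mem_empty_iff_false, iff_false]
      rintro ⟨E, hE, _, p, hp, _⟩
      have : E = ∅ := by
        rw [← Finset.card_eq_zero]; omega
      rw [this] at hp
      exact absurd hp (Finset.notMem_empty p)
    · refine (hmin (max j0 m) (l - 1) (by omega)).subset ?_
      rintro k ⟨E, hE, hk, p, hp, hpD⟩
      refine ⟨E.erase p, ?_, ?_⟩
      · rw [Finset.card_erase_of_mem hp]; omega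
      · have h1 : ind (E.erase p) = ind {p} + ind E := by
          funext q
          by_cases hq : q = p
          · subst hq
            simp [ind, hp, add_self_z2]
          · simp [ind, hq]
        have h2 : ind {p} ∈ s.K (max j0 m) := by
          refine s.Kmono (le_max_right j0 m) (s.DK m ?_)
          rw [ind_mem_PS]
          simpa using hpD
        rw [h1, add_assoc]
        exact Submodule.add_mem _ h2 (s.Kmono (le_max_left j0 m) hk)
  -- one step of the selection
  have hstep : ∀ (a : ℕ) (S : Finset X) (k0 : ℕ), (S : Set X) ⊆ s.D a →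
      ∃ (a' : ℕ) (S' b : Finset X) (k : ℕ), a < a' ∧ k0 < k ∧ S ⊆ S' ∧ b ⊆ S' ∧ Disjoint b S ∧
        (S' : Set X) ⊆ s.D a' ∧ ind b + I k ∈ s.K j0 ∧
        (∀ E : Finset X, E.card ≤ a → ∀ c ⊆ b, ∀ y ∈ U S', ind E + ind c + y ∈ s.K a → c ⊆ E) := by
    intro a S k0 hSa
    obtain ⟨j', hj'⟩ := s.good a (a + l)
    have hex : ∃ k ∈ {k | ∃ E : Finset X, E.card ≤ l ∧ ind E + I k ∈ s.K j0} \
        ({k | ∃ E : Finset X, E.card ≤ l ∧ ind E + I k ∈ s.K j0 ∧ ∃ p ∈ E, p ∈ s.D (max j' a)} ∪
          Set.Iic k0), True := by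
      have := (hinf.sdiff ((hfin (max j' a)).union (Set.finite_Iic k0))).nonempty
      obtain ⟨k, hk⟩ := this
      exact ⟨k, hk, trivial⟩
    obtain ⟨k, ⟨⟨b, hbl, hbk⟩, hknot⟩, -⟩ := hex
    have hk0 : k0 < k := by
      by_contra hcon
      exact hknot (Or.inr (not_lt.1 hcon))
    have hbD : ∀ p ∈ b, p ∉ s.D (max j' a) := by
      intro p hp hpD
      exact hknot (Or.inl ⟨b, hbl, hbk, p, hp, hpD⟩)
    -- compactness
    have hsepc : ∀ c ∈ b.powerset, ∃ T : Finset X, ∀ E : Finset X, E.card ≤ a → ¬ c ⊆ E →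
        ∀ y ∈ U T, ind E + ind c + y ∉ s.K a := by
      intro c hc
      have hcb : c ⊆ b := Finset.mem_powerset.1 hc
      have hCcl : IsClosed (W a ∩ ⋃ p ∈ c, {x : P | x p = 0}) := by
        refine (isClosed_W a).inter ?_
        refine Set.Finite.isClosed_biUnion c.finite_toSet fun p _ => ?_
        exact isClosed_eq (continuous_apply p) continuous_const
      have hCco : IsCompact ((fun x : P => x + ind c) '' (W a ∩ ⋃ p ∈ c, {x : P | x p = 0})) :=
        hCcl.isCompact.image (continuous_id.add continuous_const)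
      obtain ⟨T, hT⟩ := sep hCco (s.Kcl a) (by
        rintro _ ⟨x, ⟨⟨E, hE, rfl⟩, hx⟩, rfl⟩ hmem
        simp only [mem_iUnion, exists_prop] at hx
        obtain ⟨p, hpc, hp0⟩ := hx
        have hpE : p ∉ E := by
          intro hpE
          have : ind E p = 0 := hp0
          simp [ind, hpE] at this
        have h1 : (symmDiff E c).card ≤ a + l := by
          have h2 := card_symmDiff_le E c
          have h3 := Finset.card_le_card hcb
          omega
        have h4 := hj' (symmDiff E c) h1 (by rw [ind_symmDiff]; exact hmem)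
        have h5 : p ∈ symmDiff E c := by
          rw [Finset.mem_symmDiff]; exact Or.inr ⟨hpc, hpE⟩
        exact hbD p (hcb hpc) (s.Dmono (le_max_left _ _) (h4 h5)))
      refine ⟨T, fun E hE hcE y hy => ?_⟩
      refine hT _ ⟨ind E, ⟨⟨E, hE, rfl⟩, ?_⟩, rfl⟩ y hy
      obtain ⟨p, hp, hpE⟩ := Finset.not_subset.1 hcE
      simp only [mem_iUnion, exists_prop]
      exact ⟨p, hp, by simp [ind, hpE]⟩
    choose! T hT using hsepc
    set S' : Finset X := S ∪ b ∪ b.powerset.biUnion T with hS'
    obtain ⟨a1, ha1⟩ := s.finset_sub S'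
    refine ⟨max a1 (a + 1), S', b, k, ?_, hk0, ?_, ?_, ?_, ?_, hbk, ?_⟩
    · have := le_max_right a1 (a + 1); omega
    · intro p hp; simp [hS', hp]
    · intro p hp; simp [hS', hp]
    · rw [Finset.disjoint_left]
      intro p hpb hpS
      exact hbD p hpb (s.Dmono (le_max_right _ _) (hSa hpS))
    · exact ha1.trans (s.Dmono (le_max_left _ _))
    · intro E hE c hcb y hy hmem
      by_contra hcE
      refine hT c (Finset.mem_powerset.2 hcb) E hE hcE y ?_ hmem
      refine U_anti ?_ hy
      intro p hp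
      simp only [hS', Finset.mem_union, Finset.mem_biUnion]
      exact Or.inr ⟨c, Finset.mem_powerset.2 hcb, hp⟩
  -- the sequence
  obtain ⟨f, -, hfQ, hfR⟩ := exists_seq_rel (α := ℕ × Finset X × Finset X × ℕ)
    (fun t => (t.2.1 : Set X) ⊆ s.D t.1)
    (fun _ t t' => t.1 < t'.1 ∧ t.2.2.2 < t'.2.2.2 ∧ t.2.1 ⊆ t'.2.1 ∧ t'.2.2.1 ⊆ t'.2.1 ∧
      Disjoint t'.2.2.1 t.2.1 ∧ ind t'.2.2.1 + I t'.2.2.2 ∈ s.K j0 ∧
      (∀ E : Finset X, E.card ≤ t.1 → ∀ c ⊆ t'.2.2.1, ∀ y ∈ U t'.2.1,
        ind E + ind c + y ∈ s.K t.1 → c ⊆ E))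
    (0, ∅, ∅, 0) (by simp) (by
      rintro n ⟨a, S, b0, k0⟩ hS
      obtain ⟨a', S', b, k, h1, h2, h3, h4, h5, h6, h7, h8⟩ := hstep a S k0 hS
      exact ⟨(a', S', b, k), h6, h1, h2, h3, h4, h5, h7, h8⟩)
  set a : ℕ → ℕ := fun i => (f i).1 with ha
  set S : ℕ → Finset X := fun i => (f i).2.1 with hS
  set b : ℕ → Finset X := fun i => (f (i + 1)).2.2.1 with hb
  set k : ℕ → ℕ := fun i => (f (i + 1)).2.2.2 with hk
  have hamono : StrictMono a := strictMono_nat_of_lt_succ fun i => (hfR i).1
  have hai : ∀ i, i ≤ a i := fun i => hamono.le_apply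
  have hkmono : StrictMono k := strictMono_nat_of_lt_succ fun i => (hfR (i + 1)).2.1
  have hSmono : Monotone S := monotone_nat_of_le_succ fun i => (hfR i).2.2.1
  have hbS : ∀ i, b i ⊆ S (i + 1) := fun i => (hfR i).2.2.2.1
  have hbd : ∀ i, Disjoint (b i) (S i) := fun i => (hfR i).2.2.2.2.1
  have hbI : ∀ i, ind (b i) + I (k i) ∈ s.K j0 := fun i => (hfR i).2.2.2.2.2.1
  have hprop : ∀ i, ∀ E : Finset X, E.card ≤ a i → ∀ c ⊆ b i, ∀ y ∈ U (S (i + 1)),
      ind E + ind c + y ∈ s.K (a i) → c ⊆ E := fun i => (hfR i).2.2.2.2.2.2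
  have hSD : ∀ i, (S i : Set X) ⊆ s.D (a i) := hfQ
  have hSK : ∀ i, PS (S i : Set X) ≤ s.K (a i) := fun i => (PS_mono (hSD i)).trans (s.DK _)
  set A : Set X := ⋃ i, (b i : Set X) with hA
  have hAlt : ∀ {i p}, p ∈ A → p ∉ S i → ∃ i' ≥ i, p ∈ b i' := by
    intro i p hp hpS
    obtain ⟨i', hi'⟩ := mem_iUnion.1 hp
    refine ⟨i', ?_, hi'⟩
    by_contra hlt
    push Not at hlt
    exact hpS (hSmono (Nat.succ_le_of_lt hlt) (hbS i' hi'))
  -- key property
  have hstar : ∀ i, ∀ y ∈ PS A, ∀ E : Finset X, E.card ≤ a i → ind E + y ∈ s.K (a i) →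
      ∀ p ∈ b i, y p ≠ 0 → p ∈ E := by
    intro i y hy E hE hmem p hp hyp
    set y1 : P := fun p => if p ∈ S i then y p else 0 with hy1
    set y2 : P := fun p => if p ∈ S (i + 1) then 0 else y p with hy2
    set c : Finset X := (b i).filter (fun p => y p ≠ 0) with hc
    have hdec : y = y1 + ind c + y2 := by
      funext q
      simp only [hy1, hy2, ind, Pi.add_apply, hc, Finset.mem_filter]
      by_cases hq : q ∈ S i
      · have hq' : q ∈ S (i + 1) := hSmono (Nat.le_succ i) hq
        have hqb : q ∉ b i := fun h => (Finset.disjoint_left.1 (hbd i)) h hq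
        simp [hq, hq', hqb]
      · by_cases hq' : q ∈ S (i + 1)
        · by_cases hqb : q ∈ b i
          · rcases z2 (y q) with h | h <;> simp [hq, hq', hqb, h]
          · have : y q = 0 := by
              apply hy
              intro hqA
              obtain ⟨i', hi', hqb'⟩ := hAlt hqA hq
              rcases Nat.eq_or_lt_of_le hi' with h | h
              · subst h; exact hqb hqb'
              · exact (Finset.disjoint_left.1 (hbd i')) hqb' (hSmono (Nat.succ_le_of_lt h) hq')
            simp [hq, hq', hqb, this]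
        · have hqb : q ∉ b i := fun h => hq' (hbS i h)
          simp [hq, hq', hqb]
    have hy1K : y1 ∈ s.K (a i) := by
      refine hSK i ?_
      intro q hq
      simp only [hy1]
      rw [if_neg (by simpa using hq)]
    have hy2U : y2 ∈ U (S (i + 1)) := by
      intro q hq
      simp [hy2, hq]
    have hmem' : ind E + ind c + y2 ∈ s.K (a i) := by
      have h1 := (s.K (a i)).add_mem hmem hy1K
      have h2 : ind E + y + y1 = ind E + ind c + y2 := by
        rw [hdec]
        have : ind E + (y1 + ind c + y2) + y1 = ind E + ind c + y2 + (y1 + y1) := by abel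
        rw [this, add_self_P, add_zero]
      rwa [h2] at h1
    exact hprop i E hE c (Finset.filter_subset _ _) y2 hy2U hmem' (by simp [hc, hp, hyp])
  -- the functional
  have hfun : ∃ g : ℕ → P →ₗ[ZMod 2] ZMod 2, (∀ i, Continuous (g i)) ∧
      ∀ i, (∀ x ∈ s.K (a i), g (i + 1) x = g i x) ∧ ∀ p ∈ b i, g (i + 1) (e p) = 1 := by
    obtain ⟨g, -, hg1, hg2⟩ := exists_seq_rel (α := P →ₗ[ZMod 2] ZMod 2)
      (fun g => Continuous g)
      (fun i g g' => (∀ x ∈ s.K (a i), g' x = g x) ∧ ∀ p ∈ b i, g' (e p) = 1)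
      0 (by change Continuous (fun _ : P => (0 : ZMod 2)); exact continuous_const) (by
        intro i g hg
        obtain ⟨h, hh1, hh2, hh3⟩ := ext_functional (s.Kcl (a i)) (b i) (by
          intro c hc hcK
          have h1 := hprop i ∅ (by simp) c hc 0 (Submodule.zero_mem _)
            (by simpa [ind_empty] using hcK)
          exact Finset.subset_empty.1 h1) (fun p => 1 + g (e p))
        refine ⟨g + h, hg.add hh1, ?_, ?_⟩
        · intro x hx
          simp [hh2 x hx]
        · intro p hp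
          rw [LinearMap.add_apply, hh3 p hp]
          rcases z2 (g (e p)) with h0 | h0 <;> rw [h0] <;> decide)
    exact ⟨g, hg1, hg2⟩
  obtain ⟨g, hgc, hg⟩ := hfun
  obtain ⟨φ, hφ⟩ := ultralim g
  have hgst : ∀ i, ∀ x ∈ s.K (a i), ∀ i' ≥ i, g i' x = g i x := by
    intro i x hx i' hi'
    induction i', hi' using Nat.le_induction with
    | base => rfl
    | succ n hn ih =>
      rw [(hg n).1 x (s.Kmono (hamono.monotone hn) hx), ih]
  have hφK : ∀ i, ∀ x ∈ s.K (a i), φ x = g i x := fun i x hx =>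
    ultralim_eq hφ (hgst i x hx)
  refine ⟨PS A, A, φ, ⟨isClosed_PS A, le_rfl, ?_, ?_, ?_, ?_⟩⟩
  · intro m l2
    set i0 := max m l2 with hi0
    obtain ⟨j', hj'⟩ := s.good (a i0) l2
    refine ⟨j', fun E hE hmem => ?_⟩
    obtain ⟨x, hx, y, hy, hxy⟩ := Submodule.mem_sup.1 hmem
    have hEy : ind E + y = x := by
      rw [← hxy, add_assoc, add_self_P, add_zero]
    have hbE : ∀ i ≥ i0, ∀ p ∈ b i, y p ≠ 0 → p ∈ E := by
      intro i hi
      refine hstar i y hy E ?_ ?_
      · exact hE.trans (((le_max_right m l2).trans hi).trans (hai i))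
      · rw [hEy]
        exact s.Kmono (((le_max_left m l2).trans hi).trans (hai i)) hx
    set y1 : P := fun p => if p ∈ S i0 then y p else 0 with hy1
    have hy1K : y1 ∈ s.K (a i0) := by
      refine hSK i0 ?_
      intro q hq
      simp only [hy1]
      rw [if_neg (by simpa using hq)]
    set E' : Finset X := E.filter (fun p => ¬ (p ∉ S i0 ∧ y p ≠ 0)) with hE'
    have hind : ind E' = x + y1 := by
      rw [← hEy]
      funext q
      simp only [hE', hy1, ind, Pi.add_apply, Finset.mem_filter]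
      by_cases hq : q ∈ S i0
      · have := add_self_z2 (y q)
        simp only [hq, not_true, false_and, not_false_eq_true, and_true, if_true]
        rw [add_assoc, this, add_zero]
      · by_cases hy0 : y q = 0
        · simp [hq, hy0]
        · have hqA : q ∈ A := by
            by_contra hqA
            exact hy0 (hy q hqA)
          obtain ⟨i', hi', hqb⟩ := hAlt hqA hq
          have hqE := hbE i' hi' q hqb hy0
          have hy1' : y q = 1 := (z2 _).resolve_left hy0
          simp [hq, hqE, hy1', add_self_z2]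
    have hE'D : (E' : Set X) ⊆ s.D j' := by
      refine hj' E' ((Finset.card_filter_le _ _).trans hE) ?_
      rw [hind]
      exact Submodule.add_mem _ (s.Kmono (((le_max_left m l2)).trans (hai i0)) hx) hy1K
    intro p hp
    by_cases hpE' : p ∈ E'
    · exact Or.inl (hE'D hpE')
    · right
      have : p ∉ S i0 ∧ y p ≠ 0 := by
        by_contra hcon
        exact hpE' (Finset.mem_filter.2 ⟨hp, hcon⟩)
      by_contra hpA
      exact this.2 (hy p hpA)
  · intro j
    refine ((hgc j).continuousOn).congr ?_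
    intro x hx
    exact hφK j x (s.Kmono (hai j) hx)
  · intro p hp
    obtain ⟨i, hi⟩ := mem_iUnion.1 hp
    have : e p ∈ s.K (a (i + 1)) := by
      refine hSK (i + 1) ?_
      rw [e_eq_ind, ind_mem_PS]
      simpa using hbS i hi
    rw [hφK (i + 1) _ this]
    exact (hg i).2 p hi
  · refine ⟨j0, ?_⟩
    rw [Filter.frequently_atTop]
    intro n
    refine ⟨k n, hkmono.le_apply, ?_⟩
    have h1 : I (k n) = (ind (b n) + I (k n)) + ind (b n) := by
      have : (ind (b n) + I (k n)) + ind (b n) = I (k n) + (ind (b n) + ind (b n)) := by abel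
      rw [this, add_self_P, add_zero]
    rw [h1]
    refine Submodule.add_mem_sup (hbI n) ?_
    rw [ind_mem_PS]
    exact subset_iUnion (fun i => (b i : Set X)) n

theorem finite_sup_span {Q : Submodule (ZMod 2) P} (hQ : (Q : Set P).Finite) (x : P) :
    ((Q ⊔ Submodule.span (ZMod 2) {x} : Submodule (ZMod 2) P) : Set P).Finite := by
  rw [Submodule.coe_sup]
  refine hQ.add ?_
  have : (Submodule.span (ZMod 2) {x} : Set P) ⊆ {0, x} := by
    intro y hy
    obtain ⟨a, rfl⟩ := Submodule.mem_span_singleton.1 hy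
    rcases z2 a with h | h <;> simp [h]
  exact (Set.toFinite _).subset this

theorem case1 (s : St) (I : ℕ → P) (hI : Tendsto I atTop (𝓝 0))
    (hfin : ∀ j l, {k | ∃ E : Finset X, E.card ≤ l ∧ ind E + I k ∈ s.K j}.Finite) :
    ∃ N A φ, Out s I N A φ := by
  classical
  -- with finite perturbation
  have hfin' : ∀ j l (Q : Submodule (ZMod 2) P), (Q : Set P).Finite →
      {k | ∃ E : Finset X, E.card ≤ l ∧ ind E + I k ∈ s.K j ⊔ Q}.Finite := by
    intro j l Q hQ
    by_contra hinf
    have hcov : {k | ∃ E : Finset X, E.card ≤ l ∧ ind E + I k ∈ s.K j ⊔ Q} ⊆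
        ⋃ q ∈ (Q : Set P), {k | ∃ E : Finset X, E.card ≤ l ∧ ind E + (q + I k) ∈ s.K j} := by
      rintro k ⟨E, hE, hk⟩
      obtain ⟨x, hx, q, hq, hxq⟩ := Submodule.mem_sup.1 hk
      simp only [mem_iUnion, exists_prop]
      refine ⟨q, hq, E, hE, ?_⟩
      have : ind E + (q + I k) = x := by
        have h1 : ind E + (q + I k) = (ind E + I k) + q := by abel
        rw [h1, ← hxq, add_assoc, add_self_P, add_zero]
      rw [this]; exact hx
    have hinf2 := (Set.Infinite.mono hcov hinf)
    have : ∃ q ∈ (Q : Set P), {k | ∃ E : Finset X, E.card ≤ l ∧ ind E + (q + I k) ∈ s.K j}.Infinite := by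
      by_contra hcon
      push Not at hcon
      exact hinf2 (hQ.biUnion hcon)
    obtain ⟨q, _, hq⟩ := this
    exact shift (s.Kcl j) l q I hI hq (hfin j (2 * l))
  have hstep : ∀ (n : ℕ) (Q : Submodule (ZMod 2) P) (S : Finset X) (k0 : ℕ), (Q : Set P).Finite →
      ∃ (S' : Finset X) (k : ℕ), k0 < k ∧ S ⊆ S' ∧ Finset.range n ×ˢ Finset.range n ⊆ S' ∧
        I k ∈ U S ∧
        (∀ E : Finset X, E.card ≤ n → ∀ y ∈ U S', ind E + I k + y ∉ s.K n ⊔ Q) := by
    intro n Q S k0 hQ
    have h1 : ∀ᶠ k in atTop, I k ∈ U S := hI.eventually ((isOpen_U S).mem_nhds (U S).zero_mem)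
    have h2 : ∀ᶠ k in atTop, k ∉ {k | ∃ E : Finset X, E.card ≤ n ∧ ind E + I k ∈ s.K n ⊔ Q} := by
      rw [← Nat.cofinite_eq_atTop]
      exact (hfin' n n Q hQ).compl_mem_cofinite
    obtain ⟨k, hk1, hk2, hk3⟩ := (h1.and (h2.and (eventually_gt_atTop k0))).exists
    have hcl : IsClosed ((s.K n ⊔ Q : Submodule (ZMod 2) P) : Set P) :=
      isClosed_sup (s.Kcl n) hQ.isClosed
    have hco : IsCompact ((fun x : P => x + I k) '' W n) :=
      (isCompact_W n).image (continuous_id.add continuous_const)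
    obtain ⟨T, hT⟩ := sep hco hcl (by
      rintro _ ⟨x, ⟨E, hE, rfl⟩, rfl⟩ hmem
      exact hk2 ⟨E, hE, hmem⟩)
    refine ⟨S ∪ T ∪ Finset.range n ×ˢ Finset.range n, k, hk3, ?_, ?_, hk1, ?_⟩
    · intro p hp; simp [hp]
    · intro p hp
      exact Finset.mem_union_right _ hp
    · intro E hE y hy
      refine hT _ ⟨ind E, ⟨E, hE, rfl⟩, rfl⟩ y ?_
      refine U_anti ?_ hy
      intro p hp; simp [hp]
  obtain ⟨f, -, hfQ, hfR⟩ := exists_seq_rel (α := Submodule (ZMod 2) P × Finset X × ℕ)
    (fun t => (t.1 : Set P).Finite)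
    (fun n t t' => t'.1 = t.1 ⊔ Submodule.span (ZMod 2) {I t'.2.2} ∧ t.2.2 < t'.2.2 ∧
      t.2.1 ⊆ t'.2.1 ∧ Finset.range n ×ˢ Finset.range n ⊆ t'.2.1 ∧ I t'.2.2 ∈ U t.2.1 ∧
      (∀ E : Finset X, E.card ≤ n → ∀ y ∈ U t'.2.1, ind E + I t'.2.2 + y ∉ s.K n ⊔ t.1))
    (⊥, ∅, 0) (by simp) (by
      rintro n ⟨Q, S, k0⟩ hQ
      obtain ⟨S', k, h1, h2, h3, h4, h5⟩ := hstep n Q S k0 hQ
      exact ⟨(Q ⊔ Submodule.span (ZMod 2) {I k}, S', k), finite_sup_span hQ _, rfl, h1, h2, h3,
        h4, h5⟩)
  set Q : ℕ → Submodule (ZMod 2) P := fun i => (f i).1 with hQdef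
  set S : ℕ → Finset X := fun i => (f i).2.1 with hSdef
  set k : ℕ → ℕ := fun i => (f (i + 1)).2.2 with hkdef
  have hQfin : ∀ i, (Q i : Set P).Finite := hfQ
  have hQs : ∀ i, Q (i + 1) = Q i ⊔ Submodule.span (ZMod 2) {I (k i)} := fun i => (hfR i).1
  have hkmono : StrictMono k := strictMono_nat_of_lt_succ fun i => (hfR (i + 1)).2.1
  have hSmono : Monotone S := monotone_nat_of_le_succ fun i => (hfR i).2.2.1
  have hQmono : Monotone Q := monotone_nat_of_le_succ fun i => by
    rw [hQs i]; exact le_sup_left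
  have hSr : ∀ i, Finset.range i ×ˢ Finset.range i ⊆ S (i + 1) := fun i => (hfR i).2.2.2.1
  have hIU : ∀ i, I (k i) ∈ U (S i) := fun i => (hfR i).2.2.2.2.1
  have hprop : ∀ i, ∀ E : Finset X, E.card ≤ i → ∀ y ∈ U (S (i + 1)),
      ind E + I (k i) + y ∉ s.K i ⊔ Q i := fun i => (hfR i).2.2.2.2.2
  have hIQ : ∀ i, I (k i) ∈ Q (i + 1) := by
    intro i
    rw [hQs i]
    exact Submodule.mem_sup_right (Submodule.mem_span_singleton_self _)
  set N : Submodule (ZMod 2) P := ⨅ i, (Q i ⊔ U (S i)) with hN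
  have hNcl : IsClosed (N : Set P) := by
    rw [hN, Submodule.coe_iInf]
    refine isClosed_iInter fun i => ?_
    exact isClosed_sup (hQfin i).isClosed
      ((AddSubgroup.isClosed_of_isOpen (U (S i)).toAddSubgroup (isOpen_U (S i))))
  have hIN : ∀ i, I (k i) ∈ N := by
    intro i
    rw [hN, Submodule.mem_iInf]
    intro j
    rcases le_or_gt j i with h | h
    · exact Submodule.mem_sup_right (U_anti (hSmono h) (hIU i))
    · exact Submodule.mem_sup_left (hQmono (Nat.succ_le_of_lt h) (hIQ i))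
  -- finite extension
  have hext : ∀ m l (R : Submodule (ZMod 2) P), (R : Set P).Finite →
      ∃ j', ∀ E : Finset X, E.card ≤ l → ind E ∈ s.K m ⊔ R → (E : Set X) ⊆ s.D j' := by
    intro m l R hR
    obtain ⟨j1, hj1⟩ := s.good m (2 * l)
    have hq : ∀ q : P, ∃ j', ∀ E : Finset X, E.card ≤ l → ind E + q ∈ s.K m → (E : Set X) ⊆ s.D j' := by
      intro q
      by_cases hex : ∃ E0 : Finset X, E0.card ≤ l ∧ ind E0 + q ∈ s.K m
      · obtain ⟨E0, hE0, hE0q⟩ := hex
        obtain ⟨j2, hj2⟩ := s.finset_sub E0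
        refine ⟨max j1 j2, fun E hE hEq => ?_⟩
        have h1 : ind (symmDiff E E0) ∈ s.K m := by
          rw [ind_symmDiff]
          have h2 := (s.K m).add_mem hEq hE0q
          have h3 : ind E + q + (ind E0 + q) = ind E + ind E0 := by
            have : ind E + q + (ind E0 + q) = ind E + ind E0 + (q + q) := by abel
            rw [this, add_self_P, add_zero]
          rwa [h3] at h2
        have h4 := hj1 _ (by have := card_symmDiff_le E E0; omega) h1
        intro p hp
        by_cases hp0 : p ∈ E0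
        · exact s.Dmono (le_max_right _ _) (hj2 hp0)
        · refine s.Dmono (le_max_left _ _) (h4 ?_)
          rw [Finset.mem_coe, Finset.mem_symmDiff]
          exact Or.inl ⟨hp, hp0⟩
      · exact ⟨0, fun E hE hEq => absurd ⟨E, hE, hEq⟩ hex⟩
    choose jq hjq using hq
    obtain ⟨M, hM⟩ := (hR.image jq).bddAbove
    refine ⟨M, fun E hE hmem => ?_⟩
    obtain ⟨x, hx, q, hq, hxq⟩ := Submodule.mem_sup.1 hmem
    have h1 : ind E + q ∈ s.K m := by
      rw [← hxq, add_assoc, add_self_P, add_zero]; exact hx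
    exact (hjq q E hE h1).trans (s.Dmono (hM (mem_image_of_mem jq hq)))
  refine ⟨N, ∅, 0, ⟨hNcl, ?_, ?_, ?_, ?_, ?_⟩⟩
  · intro x hx
    have : x = 0 := by
      funext p; exact hx p (Set.notMem_empty p)
    rw [this]; exact N.zero_mem
  · intro m l
    set i0 := max m l with hi0
    obtain ⟨j', hj'⟩ := hext m l (Q i0) (hQfin i0)
    refine ⟨j', fun E hE hmem => ?_⟩
    rw [Set.union_empty]
    refine hj' E hE ?_
    obtain ⟨x, hx, y, hy, hxy⟩ := Submodule.mem_sup.1 hmem
    have hEy : ind E + y = x := by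
      rw [← hxy, add_assoc, add_self_P, add_zero]
    have hcl : IsClosed ((s.K m ⊔ Q i0 : Submodule (ZMod 2) P) : Set P) :=
      isClosed_sup (s.Kcl m) (hQfin i0).isClosed
    -- descent
    have hdesc : ∀ M, ∀ j, i0 ≤ j → j < M → y ∈ Q (j + 1) ⊔ U (S M) → y ∈ Q j ⊔ U (S M) := by
      intro M j hj hjM hyj
      rw [hQs j, sup_assoc] at hyj
      obtain ⟨q, hq, w, hw, hqw⟩ := Submodule.mem_sup.1 hyj
      obtain ⟨z, hz, u, hu, hzu⟩ := Submodule.mem_sup.1 hw
      obtain ⟨a, rfl⟩ := Submodule.mem_span_singleton.1 hz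
      rcases z2 a with h | h
      · rw [h, zero_smul, zero_add] at hzu
        rw [← hqw, ← hzu]
        exact Submodule.add_mem_sup hq hu
      · exfalso
        rw [h, one_smul] at hzu
        refine hprop j E ?_ u (U_anti (hSmono (Nat.succ_le_of_lt hjM)) hu) ?_
        · exact hE.trans ((le_max_right m l).trans hj)
        · have h1 : ind E + I (k j) + u = x + q := by
            rw [← hEy, ← hqw, ← hzu]
            have : ind E + (q + (I (k j) + u)) + q = ind E + I (k j) + u + (q + q) := by abel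
            rw [this, add_self_P, add_zero]
          rw [h1]
          exact Submodule.add_mem_sup (s.Kmono ((le_max_left m l).trans hj) hx) hq
    have hyM : ∀ M, i0 ≤ M → y ∈ Q i0 ⊔ U (S M) := by
      intro M hM
      have hyM0 : y ∈ Q M ⊔ U (S M) := by
        have := hy
        rw [hN, Submodule.mem_iInf] at this
        exact this M
      have : ∀ d, ∀ j, j + d = M → i0 ≤ j → y ∈ Q j ⊔ U (S M) := by
        intro d
        induction d with
        | zero =>
          intro j hj _
          have : j = M := by omega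
          rw [this]; exact hyM0
        | succ d ih =>
          intro j hj hij
          exact hdesc M j hij (by omega) (ih (j + 1) (by omega) (by omega))
      exact this (M - i0) i0 (by omega) le_rfl
    by_contra hnot
    obtain ⟨T, hT⟩ := sep (isCompact_singleton (x := ind E)) hcl (by
      rintro _ rfl; exact hnot)
    -- find M with T ⊆ S M
    have hTS : ∃ M, i0 ≤ M ∧ T ⊆ S M := by
      obtain ⟨B, hB⟩ := (T.finite_toSet.image (fun p : X => max p.1 p.2)).bddAbove
      refine ⟨max i0 (B + 2), le_max_left _ _, fun p hp => ?_⟩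
      have h1 : max p.1 p.2 ≤ B := hB (mem_image_of_mem (fun p : X => max p.1 p.2) hp)
      refine hSmono (le_max_right _ _) (hSr (B + 1) ?_)
      rw [Finset.mem_product, Finset.mem_range, Finset.mem_range]
      have h2 := le_max_left p.1 p.2
      have h3 := le_max_right p.1 p.2
      omega
    obtain ⟨M, hM, hTM⟩ := hTS
    obtain ⟨q, hq, u, hu, hqu⟩ := Submodule.mem_sup.1 (hyM M hM)
    refine hT (ind E) rfl u (U_anti hTM hu) ?_
    have h1 : ind E + u = x + q := by
      rw [← hEy, ← hqu]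
      have : ind E + (q + u) + q = ind E + u + (q + q) := by abel
      rw [this, add_self_P, add_zero]
    rw [h1]
    exact Submodule.add_mem_sup hx hq
  · intro j
    change ContinuousOn (fun _ : P => (0 : ZMod 2)) _
    exact continuousOn_const
  · intro p hp
    exact absurd hp (Set.notMem_empty p)
  · refine ⟨0, ?_⟩
    rw [Filter.frequently_atTop]
    intro n
    exact ⟨k n, hkmono.le_apply, Submodule.mem_sup_right (hIN n)⟩

theorem step (s : St) (I : ℕ → P) (hI : Tendsto I atTop (𝓝 0)) : ∃ N A φ, Out s I N A φ := by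
  classical
  by_cases h : ∃ l, ∃ j, {k | ∃ E : Finset X, E.card ≤ l ∧ ind E + I k ∈ s.K j}.Infinite
  · obtain ⟨j0, hj0⟩ := Nat.find_spec h
    refine case2 s I (Nat.find h) j0 hj0 ?_
    intro j l' hl'
    by_contra hcon
    exact Nat.find_min h hl' ⟨j, hcon⟩
  · push Not at h
    exact case1 s I hI (fun j l => by
      have := h l j
      exact this)

theorem exists_rec {T Data : Type} [LinearOrder T] [WellFoundedLT T] [Inhabited Data]
    (Rel : T → (T → Data) → Data → Prop)
    (hdep : ∀ t g g' d, (∀ s < t, g s = g' s) → Rel t g d → Rel t g' d)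
    (hex : ∀ t g, (∀ s < t, Rel s g (g s)) → ∃ d, Rel t g d) :
    ∃ g : T → Data, ∀ t, Rel t g (g t) := by
  classical
  let step : (t : T) → ((s : T) → s < t → Data) → Data := fun t prev =>
    if h : ∃ d, Rel t (fun s => if hs : s < t then prev s hs else default) d
      then Classical.choose h else default
  let G : T → Data := wellFounded_lt.fix step
  have hG : ∀ t, G t = step t (fun s _ => G s) := fun t => wellFounded_lt.fix_eq step t
  refine ⟨G, fun t => ?_⟩
  induction t using WellFoundedLT.induction with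
  | ind t ih =>
    obtain ⟨d, hd⟩ := hex t G ih
    have heq : ∀ s < t, G s = (fun s => if s < t then G s else default) s := by
      intro s hs
      simp [hs]
    have h : ∃ d, Rel t (fun s => if hs : s < t then (fun s (_ : s < t) => G s) s hs else default) d :=
      ⟨d, hdep t _ _ d (by intro s hs; simp [hs]) hd⟩
    have hGt : G t = Classical.choose h := by
      rw [hG t]
      simp only [step]
      rw [dif_pos h]
    rw [hGt]
    exact hdep t _ _ _ (by intro s hs; simp [hs]) (Classical.choose_spec h)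

abbrev Data : Type := Submodule (ZMod 2) P × Set X × (P →ₗ[ZMod 2] ZMod 2)

variable {T : Type}

/-- the first `i` columns -/
def Col (i : ℕ) : Set X := {p | p.1 < i}

noncomputable def NN (g : T → Data) (F : Finset T) (i : ℕ) : Submodule (ZMod 2) P :=
  PS (Col i) ⊔ F.sup (fun s => (g s).1)

def AA (g : T → Data) (F : Finset T) (i : ℕ) : Set X := Col i ∪ ⋃ s ∈ F, (g s).2.1

theorem Col_mono {i j : ℕ} (h : i ≤ j) : Col i ⊆ Col j := fun _ hp => lt_of_lt_of_le hp h

theorem NN_mono (g : T → Data) {F F' : Finset T} {i i' : ℕ} (hF : F ⊆ F') (hi : i ≤ i') :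
    NN g F i ≤ NN g F' i' :=
  sup_le_sup (PS_mono (Col_mono hi)) (Finset.sup_mono hF)

theorem AA_mono (g : T → Data) {F F' : Finset T} {i i' : ℕ} (hF : F ⊆ F') (hi : i ≤ i') :
    AA g F i ⊆ AA g F' i' :=
  Set.union_subset_union (Col_mono hi) (biUnion_subset_biUnion_left hF)

theorem NN_congr {g g' : T → Data} {F : Finset T} (h : ∀ s ∈ F, g s = g' s) (i : ℕ) :
    NN g F i = NN g' F i := by
  unfold NN
  congr 1
  exact Finset.sup_congr rfl fun s hs => by rw [h s hs]

theorem AA_congr {g g' : T → Data} {F : Finset T} (h : ∀ s ∈ F, g s = g' s) (i : ℕ) :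
    AA g F i = AA g' F i := by
  unfold AA
  congr 1
  exact Set.iUnion₂_congr fun s hs => by rw [h s hs]

structure Rel [LinearOrder T] (sq : T → ℕ → P) (t : T) (g : T → Data) (d : Data) : Prop where
  cl : IsClosed (d.1 : Set P)
  AN : PS d.2.1 ≤ d.1
  good : ∀ F : Finset T, (∀ s ∈ F, s < t) → ∀ i l : ℕ, ∃ (F' : Finset T) (i' : ℕ),
    (∀ s ∈ F', s < t) ∧ ∀ E : Finset X, E.card ≤ l → ind E ∈ NN g F i ⊔ d.1 →
      (E : Set X) ⊆ AA g F' i' ∪ d.2.1
  cont : ∀ F : Finset T, (∀ s ∈ F, s < t) → ∀ i, ContinuousOn d.2.2 (NN g F i)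
  one : ∀ p ∈ d.2.1, d.2.2 (e p) = 1
  freq : ∃ (F : Finset T) (i : ℕ), (∀ s ∈ F, s < t) ∧ ∃ᶠ k in atTop, sq t k ∈ NN g F i ⊔ d.1

theorem Rel_dep [LinearOrder T] (sq : T → ℕ → P) (t : T) (g g' : T → Data) (d : Data)
    (h : ∀ s < t, g s = g' s) (hr : Rel sq t g d) : Rel sq t g' d := by
  refine ⟨hr.cl, hr.AN, ?_, ?_, hr.one, ?_⟩
  · intro F hF i l
    obtain ⟨F', i', hF', hE⟩ := hr.good F hF i l
    refine ⟨F', i', hF', ?_⟩
    rw [← NN_congr (fun s hs => h s (hF s hs)), ← AA_congr (fun s hs => h s (hF' s hs))]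
    exact hE
  · intro F hF i
    rw [← NN_congr (fun s hs => h s (hF s hs))]
    exact hr.cont F hF i
  · obtain ⟨F, i, hF, hE⟩ := hr.freq
    refine ⟨F, i, hF, ?_⟩
    rw [← NN_congr (fun s hs => h s (hF s hs))]
    exact hE

theorem PS_union_le (A B : Set X) : PS (A ∪ B) ≤ PS A ⊔ PS B := by
  classical
  intro x hx
  refine Submodule.mem_sup.2 ⟨fun p => if p ∈ A then x p else 0, ?_,
    fun p => if p ∈ A then 0 else x p, ?_, ?_⟩
  · intro p hp
    simp [hp]
  · intro p hp
    by_cases hpA : p ∈ A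
    · simp [hpA]
    · simp only [hpA, if_false]
      exact hx p (by simp [hpA, hp])
  · funext p
    by_cases hpA : p ∈ A <;> simp [hpA]

theorem PS_AA_le (g : T → Data) (F : Finset T) (i : ℕ) (h : ∀ s ∈ F, PS (g s).2.1 ≤ (g s).1) :
    PS (AA g F i) ≤ NN g F i := by
  classical
  induction F using Finset.induction_on with
  | empty =>
    unfold AA NN
    simp
  | insert s F _ ih =>
    have h1 : AA g (insert s F) i = AA g F i ∪ (g s).2.1 := by
      unfold AA
      rw [Finset.set_biUnion_insert]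
      rw [union_comm (g s).2.1, union_assoc]
    rw [h1]
    refine (PS_union_le _ _).trans (sup_le ?_ ?_)
    · exact (ih fun s hs => h s (Finset.mem_insert_of_mem hs)).trans
        (NN_mono g (Finset.subset_insert s F) le_rfl)
    · refine (h s (Finset.mem_insert_self s F)).trans ?_
      unfold NN
      rw [Finset.sup_insert]
      exact le_sup_left.trans le_sup_right

theorem isClosed_NN (g : T → Data) (F : Finset T) (i : ℕ) (h : ∀ s ∈ F, IsClosed ((g s).1 : Set P)) :
    IsClosed (NN g F i : Set P) := by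
  classical
  unfold NN
  refine isClosed_sup (isClosed_PS _) ?_
  induction F using Finset.induction_on with
  | empty =>
    rw [Finset.sup_empty, Submodule.bot_coe]
    exact isClosed_singleton
  | insert s F _ ih =>
    rw [Finset.sup_insert]
    exact isClosed_sup (h s (Finset.mem_insert_self s F))
      (ih fun s hs => h s (Finset.mem_insert_of_mem hs))

theorem NN_insert (g : T → Data) (F : Finset T) [DecidableEq T] (s : T) (i : ℕ) :
    NN g (insert s F) i = NN g F i ⊔ (g s).1 := by
  unfold NN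
  rw [Finset.sup_insert, sup_comm (g s).1, sup_assoc]

theorem AA_insert (g : T → Data) (F : Finset T) [DecidableEq T] (s : T) (i : ℕ) :
    AA g (insert s F) i = AA g F i ∪ (g s).2.1 := by
  unfold AA
  rw [Finset.set_biUnion_insert]
  rw [union_comm (g s).2.1, union_assoc]

/-- goodness below `t` -/
theorem good_below [LinearOrder T] (sq : T → ℕ → P) (t : T) (g : T → Data)
    (h : ∀ s < t, Rel sq s g (g s)) (F : Finset T) (hF : ∀ s ∈ F, s < t) (i l : ℕ) :
    ∃ (F' : Finset T) (i' : ℕ), (∀ s ∈ F', s < t) ∧ ∀ E : Finset X, E.card ≤ l → ind E ∈ NN g F i →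
      (E : Set X) ⊆ AA g F' i' := by
  classical
  rcases F.eq_empty_or_nonempty with rfl | hne
  · refine ⟨∅, i, by simp, fun E _ hE => ?_⟩
    have h1 : NN g ∅ i = PS (Col i) := by simp [NN]
    rw [h1, ind_mem_PS] at hE
    exact hE.trans Set.subset_union_left
  · set s0 := F.max' hne with hs0
    have hs0F : s0 ∈ F := F.max'_mem hne
    have hr := h s0 (hF s0 hs0F)
    obtain ⟨F', i', hF', hE'⟩ := hr.good (F.erase s0) (fun s hs => by
      have := Finset.mem_erase.1 hs
      exact lt_of_le_of_ne (F.le_max' s this.2) this.1) i l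
    refine ⟨insert s0 F', i', ?_, ?_⟩
    · intro s hs
      rcases Finset.mem_insert.1 hs with rfl | hs
      · exact hF _ hs0F
      · exact (hF' s hs).trans (hF _ hs0F)
    · intro E hE hEN
      rw [AA_insert]
      refine hE' E hE ?_
      rw [← NN_insert, Finset.insert_erase hs0F]
      exact hEN

theorem exists_next [LinearOrder T] (hcount : ∀ t : T, (Set.Iio t).Countable)
    (sq : T → ℕ → P) (hsq : ∀ t, Tendsto (sq t) atTop (𝓝 0)) (t : T) (g : T → Data)
    (h : ∀ s < t, Rel sq s g (g s)) : ∃ d, Rel sq t g d := by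
  classical
  obtain ⟨F, hFmono, hFt, hFcov⟩ : ∃ F : ℕ → Finset T, Monotone F ∧ (∀ j, ∀ s ∈ F j, s < t) ∧
      ∀ s < t, ∃ j, s ∈ F j := by
    rcases (Set.Iio t).eq_empty_or_nonempty with he | hne
    · refine ⟨fun _ => ∅, fun _ _ _ => le_rfl, by simp, fun s hs => ?_⟩
      have : s ∈ Set.Iio t := hs
      rw [he] at this
      exact absurd this (Set.notMem_empty s)
    · obtain ⟨f, hf⟩ := (hcount t).exists_eq_range hne
      refine ⟨fun j => (Finset.range j).image f, ?_, ?_, ?_⟩
      · intro a b hab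
        exact Finset.image_subset_image (Finset.range_mono hab)
      · intro j s hs
        obtain ⟨n, _, rfl⟩ := Finset.mem_image.1 hs
        have : f n ∈ Set.Iio t := by rw [hf]; exact Set.mem_range_self n
        exact this
      · intro s hs
        have : s ∈ Set.Iio t := hs
        rw [hf] at this
        obtain ⟨n, rfl⟩ := this
        exact ⟨n + 1, Finset.mem_image_of_mem _ (Finset.self_mem_range_succ n)⟩
  have hcof : ∀ F' : Finset T, (∀ s ∈ F', s < t) → ∃ j, F' ⊆ F j := by
    intro F'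
    induction F' using Finset.induction_on with
    | empty => intro _; exact ⟨0, by simp⟩
    | insert s F' _ ih =>
      intro hs
      obtain ⟨j, hj⟩ := ih fun s' hs' => hs s' (Finset.mem_insert_of_mem hs')
      obtain ⟨j', hj'⟩ := hFcov s (hs s (Finset.mem_insert_self s F'))
      refine ⟨max j j', Finset.insert_subset (hFmono (le_max_right _ _) hj')
        (hj.trans (hFmono (le_max_left _ _)))⟩
  let st : St :=
    { K := fun j => NN g (F j) j
      D := fun j => AA g (F j) j
      Kmono := fun a b hab => NN_mono g (hFmono hab) hab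
      Kcl := fun j => isClosed_NN g (F j) j fun s hs => (h s (hFt j s hs)).cl
      Dmono := fun a b hab => AA_mono g (hFmono hab) hab
      DK := fun j => PS_AA_le g (F j) j fun s hs => (h s (hFt j s hs)).AN
      cov := fun p => ⟨p.1 + 1, Or.inl (Nat.lt_succ_self p.1)⟩
      good := by
        intro j l
        obtain ⟨F', i', hF', hE⟩ := good_below sq t g h (F j) (hFt j) j l
        obtain ⟨j1, hj1⟩ := hcof F' hF'
        refine ⟨max j1 i', fun E hEc hEN => (hE E hEc hEN).trans ?_⟩
        exact AA_mono g (hj1.trans (hFmono (le_max_left _ _))) (le_max_right _ _) }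
  obtain ⟨N, A, φ, hout⟩ := step st (sq t) (hsq t)
  refine ⟨(N, A, φ), ⟨hout.cl, hout.AN, ?_, ?_, hout.one, ?_⟩⟩
  · intro F' hF' i l
    obtain ⟨j1, hj1⟩ := hcof F' hF'
    obtain ⟨j', hj'⟩ := hout.good (max j1 i) l
    refine ⟨F j', j', hFt j', fun E hE hmem => hj' E hE ?_⟩
    have h1 : NN g F' i ≤ NN g (F (max j1 i)) (max j1 i) :=
      NN_mono g (hj1.trans (hFmono (le_max_left _ _))) (le_max_right _ _)
    have h2 : NN g F' i ⊔ N ≤ NN g (F (max j1 i)) (max j1 i) ⊔ N := sup_le_sup h1 le_rfl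
    exact h2 hmem
  · intro F' hF' i
    obtain ⟨j1, hj1⟩ := hcof F' hF'
    refine (hout.cont (max j1 i)).mono ?_
    exact NN_mono g (hj1.trans (hFmono (le_max_left _ _))) (le_max_right _ _)
  · obtain ⟨j, hj⟩ := hout.freq
    exact ⟨F j, j, hFt j, hj⟩

theorem exists_family [LinearOrder T] [WellFoundedLT T] (hcount : ∀ t : T, (Set.Iio t).Countable)
    (sq : T → ℕ → P) (hsq : ∀ t, Tendsto (sq t) atTop (𝓝 0)) :
    ∃ g : T → Data, ∀ t, Rel sq t g (g t) :=
  exists_rec (Rel sq) (Rel_dep sq) (exists_next hcount sq hsq)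

variable {T : Type}

abbrev Amb (T : Type) : Type := P × (ℕ → ZMod 2) × (T → ZMod 2)

/-- the group -/
def Gr (g : T → Data) : AddSubgroup (Amb T) where
  carrier := {u | {t | u.2.2 t ≠ (g t).2.2 u.1}.Countable}
  zero_mem' := by
    have : {t | (0 : Amb T).2.2 t ≠ (g t).2.2 (0 : Amb T).1} = ∅ := by
      ext t
      simp
    change Set.Countable {t | (0 : Amb T).2.2 t ≠ (g t).2.2 (0 : Amb T).1}
    rw [this]
    exact Set.countable_empty
  add_mem' := by
    intro a b ha hb
    refine (Set.Countable.union ha hb).mono ?_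
    intro t ht
    by_contra hcon
    simp only [Set.mem_union, not_or] at hcon
    have h1 : a.2.2 t = (g t).2.2 a.1 := by
      by_contra h; exact hcon.1 h
    have h2 : b.2.2 t = (g t).2.2 b.1 := by
      by_contra h; exact hcon.2 h
    apply ht
    change a.2.2 t + b.2.2 t = (g t).2.2 (a.1 + b.1)
    rw [map_add, h1, h2]
  neg_mem' := by
    intro a ha
    refine Set.Countable.mono ?_ ha
    intro t ht hcon
    apply ht
    change - a.2.2 t = (g t).2.2 (- a.1)
    rw [map_neg, hcon]

theorem mem_Gr {g : T → Data} {u : Amb T} :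
    u ∈ Gr g ↔ {t | u.2.2 t ≠ (g t).2.2 u.1}.Countable := Iff.rfl

section

variable [LinearOrder T] {sq : T → ℕ → P} {g : T → Data}

theorem tendsto_of_on {t : T} (hrel : Rel sq t g (g t)) {F : Finset T} (hF : ∀ s ∈ F, s < t) {i : ℕ}
    {v : ℕ → P} (hv : ∀ k, v k ∈ NN g F i) (hv0 : Tendsto v atTop (𝓝 0)) :
    Tendsto (fun k => (g t).2.2 (v k)) atTop (𝓝 0) := by
  have h1 := (hrel.cont F hF i) 0 (Submodule.zero_mem _)
  have h2 : Tendsto v atTop (𝓝[(NN g F i : Set P)] 0) :=
    tendsto_nhdsWithin_iff.2 ⟨hv0, Eventually.of_forall hv⟩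
  have h3 := h1.tendsto.comp h2
  rw [map_zero] at h3
  exact h3

theorem seqCompact (hcount : ∀ t : T, (Set.Iio t).Countable) (hrel : ∀ t, Rel sq t g (g t))
    (hsurj : ∀ I : ℕ → P, Tendsto I atTop (𝓝 0) → ∃ t, sq t = I) : SeqCompactSpace (Gr g) := by
  classical
  refine ⟨fun u _ => ?_⟩
  -- first coordinate
  obtain ⟨x, φ1, hφ1, hx⟩ := SeqCompactSpace.tendsto_subseq (fun k => (u k).1.1)
  set v : ℕ → P := fun k => (u (φ1 k)).1.1 + x with hv
  have hv0 : Tendsto v atTop (𝓝 0) := by
    have : Tendsto v atTop (𝓝 (x + x)) := hx.add tendsto_const_nhds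
    rwa [add_self_P] at this
  obtain ⟨t0, ht0⟩ := hsurj v hv0
  obtain ⟨F, i, hF, hfreq⟩ := (hrel t0).freq
  rw [ht0, ← NN_insert] at hfreq
  obtain ⟨φ2, hφ2, hv2⟩ := extraction_of_frequently_atTop hfreq
  have hφt : ∀ t, t0 < t → Tendsto (fun k => (g t).2.2 (u (φ1 (φ2 k))).1.1) atTop
      (𝓝 ((g t).2.2 x)) := by
    intro t ht
    have h1 := tendsto_of_on (hrel t) (F := insert t0 F) (i := i) (v := v ∘ φ2) (by
      intro s hs
      rcases Finset.mem_insert.1 hs with rfl | hs
      · exact ht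
      · exact (hF s hs).trans ht) hv2 (hv0.comp hφ2.tendsto_atTop)
    have h2 : Tendsto (fun k => (g t).2.2 ((v ∘ φ2) k) + (g t).2.2 x) atTop
        (𝓝 (0 + (g t).2.2 x)) := h1.add tendsto_const_nhds
    rw [zero_add] at h2
    refine h2.congr ?_
    intro k
    simp only [Function.comp_apply, hv]
    rw [← map_add, add_assoc, add_self_P, add_zero]
  -- countable exceptional set
  set Cnt : Set T := Set.Iic t0 ∪ ⋃ k, {t | (u k).1.2.2 t ≠ (g t).2.2 (u k).1.1} with hCnt
  have hCntc : Cnt.Countable := by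
    refine Set.Countable.union ?_ (Set.countable_iUnion fun k => (u k).2)
    rw [← Set.Iio_insert]
    exact (hcount t0).insert t0
  have : Countable Cnt := hCntc.to_subtype
  obtain ⟨z, φ3, hφ3, hz⟩ := SeqCompactSpace.tendsto_subseq
    (fun k => ((u (φ1 (φ2 k))).1.2.1, fun t : Cnt => (u (φ1 (φ2 k))).1.2.2 t))
  set y : T → ZMod 2 := fun t => if h : t ∈ Cnt then z.2 ⟨t, h⟩ else (g t).2.2 x with hy
  have hmem : ((x, z.1, y) : Amb T) ∈ Gr g := by
    rw [mem_Gr]
    refine hCntc.mono ?_
    intro t ht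
    by_contra hcon
    apply ht
    simp [hy, hcon]
  refine ⟨⟨(x, z.1, y), hmem⟩, Set.mem_univ _, φ1 ∘ φ2 ∘ φ3, hφ1.comp (hφ2.comp hφ3), ?_⟩
  rw [tendsto_subtype_rng]
  have hz1 : Tendsto (fun k => (u (φ1 (φ2 (φ3 k)))).1.2.1) atTop (𝓝 z.1) :=
    (continuous_fst.tendsto z).comp hz
  have hz2 : Tendsto (fun k => fun t : Cnt => (u (φ1 (φ2 (φ3 k)))).1.2.2 t) atTop (𝓝 z.2) :=
    (continuous_snd.tendsto z).comp hz
  refine Tendsto.prodMk_nhds ?_ (Tendsto.prodMk_nhds hz1 ?_)
  · exact hx.comp (hφ2.comp hφ3).tendsto_atTop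
  · rw [tendsto_pi_nhds]
    intro t
    by_cases ht : t ∈ Cnt
    · have h1 := (tendsto_pi_nhds.1 hz2) ⟨t, ht⟩
      simp only [hy, ht, dif_pos]
      exact h1
    · have h0 : t0 < t := by
        by_contra hcon
        exact ht (Or.inl (not_lt.1 hcon))
      have h1 := (hφt t h0).comp hφ3.tendsto_atTop
      simp only [hy, ht, dif_neg, not_false_eq_true]
      refine h1.congr ?_
      intro k
      by_contra hne
      refine ht (Or.inr (mem_iUnion.2 ⟨φ1 (φ2 (φ3 k)), ?_⟩))
      intro heq
      exact hne heq.symm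

theorem sequential [SeqCompactSpace (Gr g)] : SequentialSpace (Gr g) := by
  classical
  refine ⟨fun s hs => ?_⟩
  refine isClosed_of_closure_subset fun a ha => ?_
  -- agreeing with `a` on countable sets
  have hD : ∀ D : Set T, D.Countable → ∃ b ∈ s, b.1.1 = a.1.1 ∧ b.1.2.1 = a.1.2.1 ∧
      ∀ t ∈ D, b.1.2.2 t = a.1.2.2 t := by
    intro D hDc
    have : Countable D := hDc.to_subtype
    -- sequence of points of `s` whose relevant coordinates tend to those of `a`
    let π : Gr g → P × (ℕ → ZMod 2) × (D → ZMod 2) := fun b => (b.1.1, b.1.2.1, fun t => b.1.2.2 t)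
    have hπ : Continuous π := by
      refine Continuous.prodMk (continuous_fst.comp continuous_subtype_val) ?_
      refine Continuous.prodMk ((continuous_fst.comp continuous_snd).comp continuous_subtype_val) ?_
      refine continuous_pi fun t => ?_
      exact (continuous_apply (t : T)).comp
        ((continuous_snd.comp continuous_snd).comp continuous_subtype_val)
    have h1 : π a ∈ closure (π '' s) := map_mem_closure hπ ha (fun b hb => mem_image_of_mem π hb)
    obtain ⟨w, hw, hwlim⟩ := mem_closure_iff_seq_limit.1 h1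
    choose b hb hbw using hw
    obtain ⟨c, φ, hφ, hc⟩ := SeqCompactSpace.tendsto_subseq b
    have hcs : c ∈ s := hs (fun n => hb (φ n)) hc
    have hlim : Tendsto (fun n => π (b (φ n))) atTop (𝓝 (π c)) := (hπ.tendsto c).comp hc
    have hlim2 : Tendsto (fun n => π (b (φ n))) atTop (𝓝 (π a)) := by
      have := hwlim.comp hφ.tendsto_atTop
      refine this.congr ?_
      intro n
      exact (hbw (φ n)).symm
    have heq : π c = π a := tendsto_nhds_unique hlim hlim2
    have e1 : (π c).1 = (π a).1 := by rw [heq]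
    have e2 : (π c).2.1 = (π a).2.1 := by rw [heq]
    have e3 : (π c).2.2 = (π a).2.2 := by rw [heq]
    exact ⟨c, hcs, e1, e2, fun t ht => congrFun e3 ⟨t, ht⟩⟩
  obtain ⟨f, -, hf1, hf2⟩ := exists_seq_rel (α := Set T × Gr g)
    (fun q => q.1.Countable)
    (fun _ q q' => q'.2 ∈ s ∧ q'.2.1.1 = a.1.1 ∧ q'.2.1.2.1 = a.1.2.1 ∧
      (∀ t ∈ q.1, q'.2.1.2.2 t = a.1.2.2 t) ∧ q.1 ⊆ q'.1 ∧
      {t | q'.2.1.2.2 t ≠ a.1.2.2 t} ⊆ q'.1)
    (∅, a) Set.countable_empty (by
      rintro n ⟨D, b0⟩ hDc
      obtain ⟨b, hb, hb1, hb2, hb3⟩ := hD D hDc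
      refine ⟨(D ∪ {t | b.1.2.2 t ≠ a.1.2.2 t}, b), ?_, hb, hb1, hb2, hb3, Set.subset_union_left,
        Set.subset_union_right⟩
      refine Set.Countable.union hDc ?_
      refine (Set.Countable.union b.2 a.2).mono ?_
      intro t ht
      by_contra hcon
      simp only [Set.mem_union, not_or] at hcon
      have h1 : b.1.2.2 t = (g t).2.2 b.1.1 := by
        by_contra h; exact hcon.1 h
      have h2 : a.1.2.2 t = (g t).2.2 a.1.1 := by
        by_contra h; exact hcon.2 h
      exact ht (by rw [h1, h2, hb1]))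
  refine hs (x := fun n => (f (n + 1)).2) (fun n => (hf2 n).1) ?_
  rw [tendsto_subtype_rng]
  have hmono : Monotone (fun n => (f n).1) := monotone_nat_of_le_succ fun n => (hf2 n).2.2.2.2.1
  have hprod : Tendsto (fun n => ((f (n + 1)).2 : Amb T)) atTop
      (𝓝 ((a : Amb T).1, (a : Amb T).2.1, (a : Amb T).2.2)) := by
    refine Tendsto.prodMk_nhds ?_ (Tendsto.prodMk_nhds ?_ ?_)
    · exact tendsto_const_nhds.congr fun n => ((hf2 n).2.1).symm
    · exact tendsto_const_nhds.congr fun n => ((hf2 n).2.2.1).symm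
    · rw [tendsto_pi_nhds]
      intro t
      by_cases hex : ∃ n, ((f (n + 1)).2 : Amb T).2.2 t ≠ (a : Amb T).2.2 t
      · obtain ⟨n, hn⟩ := hex
        refine tendsto_const_nhds.congr' ?_
        filter_upwards [eventually_gt_atTop n] with m hm
        have h1 : t ∈ (f (n + 1)).1 := (hf2 n).2.2.2.2.2 hn
        have h2 : t ∈ (f m).1 := hmono (Nat.succ_le_of_lt hm) h1
        exact ((hf2 m).2.2.2.1 t h2).symm
      · push Not at hex
        exact tendsto_const_nhds.congr fun n => (hex n).symm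
  exact hprod

/-- the points `y_p` -/
noncomputable def yp (g : T → Data) (p : X) : Amb T :=
  (e p, Pi.single p.1 1, fun t => (g t).2.2 (e p))

theorem yp_mem (g : T → Data) (p : X) : yp g p ∈ Gr g := by
  rw [mem_Gr]
  have : {t | (yp g p).2.2 t ≠ (g t).2.2 (yp g p).1} = ∅ := by
    ext t; simp [yp]
  rw [this]
  exact Set.countable_empty

theorem not_FU (hrel : ∀ t, Rel sq t g (g t))
    (hsurj : ∀ I : ℕ → P, Tendsto I atTop (𝓝 0) → ∃ t, sq t = I) :
    ¬ FrechetUrysohnSpace (Gr g) := by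
  classical
  intro hFU
  set Y : Set (Gr g) := Set.range (fun p : X => (⟨yp g p, yp_mem g p⟩ : Gr g)) with hY
  have he0 : ∀ i : ℕ, Tendsto (fun n : ℕ => e ((i, n) : X)) atTop (𝓝 0) := by
    intro i
    rw [tendsto_pi_nhds]
    intro q
    refine tendsto_const_nhds.congr' ?_
    filter_upwards [eventually_gt_atTop q.2] with n hn
    have : q ≠ ((i, n) : X) := by
      intro h
      have := congrArg Prod.snd h
      simp at this
      omega
    simp [e, this]
  -- the limits of columns
  have hcol : ∀ i : ℕ, ∃ h : ((0, Pi.single i 1, 0) : Amb T) ∈ Gr g,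
      (⟨(0, Pi.single i 1, 0), h⟩ : Gr g) ∈ closure Y := by
    intro i
    have h : ((0, Pi.single i 1, 0) : Amb T) ∈ Gr g := by
      rw [mem_Gr]
      have : {t | ((0, Pi.single i 1, 0) : Amb T).2.2 t ≠ (g t).2.2 ((0, Pi.single i 1, 0) : Amb T).1}
          = ∅ := by
        ext t; simp
      rw [this]
      exact Set.countable_empty
    refine ⟨h, ?_⟩
    refine mem_closure_of_tendsto (f := fun n : ℕ => (⟨yp g (i, n), yp_mem g (i, n)⟩ : Gr g))
      (b := atTop) ?_ (Eventually.of_forall fun n => ⟨(i, n), rfl⟩)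
    rw [tendsto_subtype_rng]
    refine Tendsto.prodMk_nhds (he0 i) (Tendsto.prodMk_nhds tendsto_const_nhds ?_)
    rw [tendsto_pi_nhds]
    intro t
    refine tendsto_of_on (hrel t) (F := ∅) (by simp) (i := i + 1) ?_ (he0 i)
    intro n
    refine Submodule.mem_sup_left ?_
    rw [e_eq_ind, ind_mem_PS]
    intro p hp
    have : p = (i, n) := by simpa using hp
    rw [this]
    exact Nat.lt_succ_self i
  have h0 : (0 : Gr g) ∈ closure Y := by
    rw [← closure_closure]
    choose hm hc using hcol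
    refine mem_closure_of_tendsto (f := fun i : ℕ => (⟨(0, Pi.single i 1, 0), hm i⟩ : Gr g))
      (b := atTop) ?_ (Eventually.of_forall fun i => hc i)
    rw [tendsto_subtype_rng]
    refine Tendsto.prodMk_nhds tendsto_const_nhds (Tendsto.prodMk_nhds ?_ tendsto_const_nhds)
    rw [tendsto_pi_nhds]
    intro j
    refine tendsto_const_nhds.congr' ?_
    filter_upwards [eventually_gt_atTop j] with n hn
    have : j ≠ n := by omega
    simp [this]
  obtain ⟨x, hxY, hx0⟩ := hFU.closure_subset_seqClosure Y h0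
  choose p hp using hxY
  have hx0' : Tendsto (fun n => yp g (p n)) atTop (𝓝 (0 : Amb T)) := by
    have := tendsto_subtype_rng.1 hx0
    refine this.congr fun n => ?_
    rw [← hp n]
  have h1 : Tendsto (fun n => e (p n)) atTop (𝓝 0) :=
    (continuous_fst.tendsto (0 : Amb T)).comp hx0'
  have h2 : Tendsto (fun n => (Pi.single (p n).1 1 : ℕ → ZMod 2)) atTop (𝓝 0) :=
    ((continuous_fst.comp continuous_snd).tendsto (0 : Amb T)).comp hx0'
  have h3 : Tendsto (fun n => fun t => (g t).2.2 (e (p n))) atTop (𝓝 0) :=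
    ((continuous_snd.comp continuous_snd).tendsto (0 : Amb T)).comp hx0'
  obtain ⟨t0, ht0⟩ := hsurj _ h1
  obtain ⟨F, i, hF, hfreq⟩ := (hrel t0).freq
  obtain ⟨F', i', hF', hgood⟩ := (hrel t0).good F hF i 1
  have hpA : ∃ᶠ k in atTop, p k ∈ AA g F' i' ∪ (g t0).2.1 := by
    refine hfreq.mono fun k hk => ?_
    rw [ht0] at hk
    have hk' : ind {p k} ∈ NN g F i ⊔ (g t0).1 := by
      rw [← e_eq_ind]; exact hk
    have := hgood {p k} (by simp) hk'
    exact this (by simp)
  -- no column and no `A_s`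
  have hnoA : ∀ s, ∀ᶠ k in atTop, p k ∉ (g s).2.1 := by
    intro s
    have h4 : Tendsto (fun n => (g s).2.2 (e (p n))) atTop (𝓝 0) := (tendsto_pi_nhds.1 h3) s
    have h5 : ∀ᶠ k in atTop, (g s).2.2 (e (p k)) = 0 := by
      have := h4.eventually ((isOpen_discrete ({0} : Set (ZMod 2))).mem_nhds rfl)
      exact this
    filter_upwards [h5] with k hk hmem
    rw [(hrel s).one _ hmem] at hk
    exact one_ne_zero hk
  have hnoC : ∀ᶠ k in atTop, p k ∉ Col i' := by
    have h4 : ∀ j ∈ Finset.range i', ∀ᶠ k in atTop, (p k).1 ≠ j := by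
      intro j _
      have h5 : Tendsto (fun n => (Pi.single (p n).1 1 : ℕ → ZMod 2) j) atTop (𝓝 0) :=
        (tendsto_pi_nhds.1 h2) j
      have h6 : ∀ᶠ k in atTop, (Pi.single (p k).1 1 : ℕ → ZMod 2) j = 0 := by
        have := h5.eventually ((isOpen_discrete ({0} : Set (ZMod 2))).mem_nhds rfl)
        exact this
      filter_upwards [h6] with k hk hj
      rw [hj] at hk
      simp at hk
    have h7 := (Finset.eventually_all (Finset.range i')).2 h4
    filter_upwards [h7] with k hk hmem
    exact hk (p k).1 (Finset.mem_range.2 hmem) rfl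
  have hno : ∀ᶠ k in atTop, p k ∉ AA g F' i' ∪ (g t0).2.1 := by
    have h7 : ∀ᶠ k in atTop, ∀ s ∈ F', p k ∉ (g s).2.1 :=
      (Finset.eventually_all F').2 fun s _ => hnoA s
    filter_upwards [h7, hnoA t0, hnoC] with k hk1 hk2 hk3 hmem
    rcases hmem with (h | h) | h
    · exact hk3 h
    · simp only [mem_iUnion, exists_prop] at h
      obtain ⟨s, hs, hps⟩ := h
      exact hk1 s hs hps
    · exact hk2 h
  exact (hpA.and_eventually hno).exists.elim fun k hk => hk.2 hk.1

end

/-- Everything, from a suitable well-ordered enumeration of the null sequences. -/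
theorem main_of_enum [LinearOrder T] [WellFoundedLT T] (hcount : ∀ t : T, (Set.Iio t).Countable)
    (sq : T → ℕ → P) (hsq : ∀ t, Tendsto (sq t) atTop (𝓝 0))
    (hsurj : ∀ I : ℕ → P, Tendsto I atTop (𝓝 0) → ∃ t, sq t = I) :
    ∃ (G : Type) (_ : AddCommGroup G) (_ : TopologicalSpace G),
      IsTopologicalAddGroup G ∧ T2Space G ∧ CountablyCompactSpace G ∧ SequentialSpace G ∧
        ¬ FrechetUrysohnSpace G := by
  obtain ⟨g, hg⟩ := exists_family hcount sq hsq
  have := seqCompact hcount hg hsurj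
  refine ⟨Gr g, inferInstance, inferInstance, inferInstance, inferInstance, ?_, sequential,
    not_FU hg hsurj⟩
  exact ⟨isSeqCompact_univ.isCountablyCompact⟩

theorem main_of_CH (hCH : (Cardinal.continuum : Cardinal.{0}) = Cardinal.aleph 1) :
    ∃ (G : Type) (_ : AddCommGroup G) (_ : TopologicalSpace G),
      IsTopologicalAddGroup G ∧ T2Space G ∧ CountablyCompactSpace G ∧ SequentialSpace G ∧
        ¬ FrechetUrysohnSpace G := by
  classical
  let T : Type := {I : ℕ → P // Tendsto I atTop (𝓝 0)}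
  have hT : Cardinal.mk T ≤ Cardinal.aleph 1 := by
    rw [← hCH]
    refine (Cardinal.mk_subtype_le _).trans ?_
    simp
  obtain ⟨r, wo, hr⟩ := Cardinal.ord_eq T
  let _ : LinearOrder T := linearOrderOfSTO r
  have : WellFoundedLT T := ⟨wo.wf⟩
  refine main_of_enum (T := T) ?_ (fun t => t.1) (fun t => t.2) (fun I hI => ⟨⟨I, hI⟩, rfl⟩)
  intro t
  rw [Cardinal.countable_iff_lt_aleph_one]
  refine lt_of_lt_of_le ?_ hT
  exact Cardinal.card_typein_lt (r := r) t hr

/-- **Main result.**  Assuming the continuum hypothesis there is a Hausdorff abelian topological group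
which is countably compact and sequential but not Frechet-Urysohn. -/
theorem result (CH : (Cardinal.continuum : Cardinal.{0}) = Cardinal.aleph 1) :
    ∃ (G : Type) (_ : AddCommGroup G) (_ : TopologicalSpace G),
      IsTopologicalAddGroup G ∧ T2Space G ∧ CountablyCompactSpace G ∧ SequentialSpace G ∧
        ¬ FrechetUrysohnSpace G :=
  main_of_CH CH

end Pool.Agent.Results.MP_1ab623_gt.CHCounterexample
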