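import Pool.Agent.Lib.MP_1ab623_gt.Final

/-!
# A model of `ZFC` with a countably compact sequential group that is not Frechet-Urysohn
-/

namespace Pool.Agent.Results.MP_1ab623_gt.ZFCModel

open Pool.Agent.Lib.MP_1ab623_gt

/-- There is a model `(M, E)` of `ZFC` in which there is a Hausdorff topological group that is
countably compact and sequential but not Frechet-Urysohn. -/
theorem result : ∃ (M : Type) (E : M → M → Prop), IsZFC E ∧
    ∃ w G o e τ : M, IsOmega E w ∧ IsExample E w G o e τ :=
  exists_ZFC_model

end Pool.Agent.Results.MP_1ab623_gt.ZFCModel
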